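import Pool.Agent.Y972.SQ.Col

/-!
Let `L` be any linear order containing a copy of the rationals, and let `sigma L` (the type
`Sig L`) be the tree of strictly increasing maps from countable ordinals into `L` with range
bounded above. Then `sigma L` has a successor-partition into infinitely many pieces such that for
every choice function the selected subtree is nonspecial and, more, its set of nodes at levels in
`E` is not nonstationary, for every stationary `E` of countable ordinals. One sequence of functions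
guesses all functions into the natural numbers on every stationary set of levels and inside
each of continuum many pairwise disjoint sets of nodes. For the reals there is such a partition
with continuum many pieces.
-/

namespace Pool.Agent.Results.MP_d3ad9a_lc.SplitDiamond

open Pool.Agent.Y972.SQ Pool.Agent.H883R3 Ordinal

theorem result :
    (∀ (L : Type) [LinearOrder L], Nonempty (ℚ ↪o L) →
      (∃ P : Partn (Sig L) ℕ, ∀ f : Sig L → ℕ, ∃ S : Set (Sig L),
        IsSel P f S ∧ (∀ S', IsSel P f S' → S' = S) ∧ ¬ IsSpecial S ∧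
        ∀ E : Set (Set.Iio (ω₁ : Ordinal.{0})), IsStationary E →
          ¬ IsNonstationary {t | t ∈ S ∧ (⟨t.len, t.len_lt⟩ : Set.Iio (ω₁ : Ordinal.{0})) ∈ E}) ∧
      Diamond (Sig L) ∧
      ∃ (Z : (ℕ → ℕ) → Set (Sig L)) (d : Sig L → Sig L → ℕ),
        (∀ r r', r ≠ r' → Disjoint (Z r) (Z r')) ∧
        ∀ (r : ℕ → ℕ) (g : Sig L → ℕ) (E : Set (Set.Iio (ω₁ : Ordinal.{0}))), IsStationary E →
          ¬ IsNonstationary {t | t ∈ Z r ∧ (⟨t.len, t.len_lt⟩ : Set.Iio (ω₁ : Ordinal.{0})) ∈ E ∧
            ∀ s < t, d t s = g s}) ∧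
    ∃ P : Partn (Sig ℝ) (ℝ ⧸ (Rat.castHom ℝ).toAddMonoidHom.range),
      ∀ f : Sig ℝ → ℝ ⧸ (Rat.castHom ℝ).toAddMonoidHom.range, ∃ S : Set (Sig ℝ),
        IsSel P f S ∧ (∀ S', IsSel P f S' → S' = S) ∧ ¬ IsSpecial S ∧
        ∀ E : Set (Set.Iio (ω₁ : Ordinal.{0})), IsStationary E →
          ¬ IsNonstationary
            {t | t ∈ S ∧ (⟨t.len, t.len_lt⟩ : Set.Iio (ω₁ : Ordinal.{0})) ∈ E} := by
  refine ⟨?_, colPart _, stronglyNice real_rich⟩
  rintro L _ ⟨ι⟩
  obtain ⟨D, c, hc⟩ := exists_rich ι
  have hP := stronglyNice hc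
  obtain ⟨Z, d, h1, h2⟩ := splitting hP
  exact ⟨⟨colPart c, hP⟩, diamond_of_splitting h2, Z, d, h1, h2⟩

end Pool.Agent.Results.MP_d3ad9a_lc.SplitDiamond
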